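import Pool.Agent.Helper47.SAP.Defs

/-!
SAP-H: the known lower bound `n + k - 1` for irreducible spectrally arbitrary patterns.
-/

open Finset Topology

namespace Pool.Agent.Helper47.SAP

namespace LB

/-- parent function of a spanning out-tree. -/
theorem exists_parent {n : ℕ} (P : Pat n) (r : Fin n)
    (hr : ∀ j : Fin n, Relation.ReflTransGen (fun a b => a ≠ b ∧ (a, b) ∈ P) r j) :
    ∃ (par : Fin n → Fin n) (dist : Fin n → ℕ),
      ∀ i, i ≠ r → (par i, i) ∈ P ∧ dist (par i) < dist i := by
  classical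
  -- `S k j`: reachable in exactly k steps
  let S : ℕ → Fin n → Prop := fun k => Nat.rec (fun j => j = r)
    (fun _ T j => ∃ i, T i ∧ (i, j) ∈ P) k
  have hS0 : ∀ j, S 0 j ↔ j = r := fun j => Iff.rfl
  have hS1 : ∀ k j, S (k + 1) j ↔ ∃ i, S k i ∧ (i, j) ∈ P := fun k j => Iff.rfl
  have hex : ∀ j, ∃ k, S k j := by
    intro j
    induction hr j with
    | refl => exact ⟨0, rfl⟩
    | tail _ hbc ih =>
      obtain ⟨k, hk⟩ := ih
      exact ⟨k + 1, _, hk, hbc.2⟩
  let dist : Fin n → ℕ := fun j => sInf {k | S k j}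
  have hpar : ∀ i, ∃ p, i ≠ r → (p, i) ∈ P ∧ dist p < dist i := by
    intro i
    by_cases hi : i = r
    · exact ⟨r, fun h => absurd hi h⟩
    · have h1 : S (dist i) i := Nat.sInf_mem (s := {k | S k i}) (hex i)
      rcases hd : dist i with _ | k
      · rw [hd] at h1
        exact absurd h1 hi
      · rw [hd, hS1] at h1
        obtain ⟨p, hp, hpi⟩ := h1
        refine ⟨p, fun _ => ⟨hpi, ?_⟩⟩
        have : dist p ≤ k := Nat.sInf_le (s := {k | S k p}) hp
        omega
  choose par hpar using hpar
  exact ⟨par, dist, hpar⟩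

/-- the diagonal scaling. -/
theorem exists_scaling {n : ℕ} (r : Fin n) (par : Fin n → Fin n) (dist : Fin n → ℕ)
    (hd : ∀ i, i ≠ r → dist (par i) < dist i) (A : Matrix (Fin n) (Fin n) ℝ)
    (hA : ∀ i, i ≠ r → A (par i) i ≠ 0) :
    ∃ d : Fin n → ℝ, (∀ i, d i ≠ 0) ∧ ∀ i, i ≠ r → A (par i) i * d i = d (par i) := by
  classical
  have key : ∀ k : ℕ, ∃ d : Fin n → ℝ, (∀ i, d i ≠ 0) ∧
      ∀ i, i ≠ r → dist i < k → A (par i) i * d i = d (par i) := by
    intro k
    induction k with
    | zero => exact ⟨fun _ => 1, fun _ => one_ne_zero, fun i _ h => absurd h (Nat.not_lt_zero _)⟩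
    | succ k ih =>
      obtain ⟨d, hd0, hd1⟩ := ih
      refine ⟨fun i => if i ≠ r ∧ dist i = k then d (par i) / A (par i) i else d i, ?_, ?_⟩
      · intro i
        dsimp only
        split_ifs with h
        · exact div_ne_zero (hd0 _) (hA i h.1)
        · exact hd0 i
      · intro i hi hik
        have hlt := hd i hi
        have h1 : ¬ (par i ≠ r ∧ dist (par i) = k) := by
          rintro ⟨_, h⟩
          omega
        dsimp only
        rw [if_neg h1]
        by_cases h2 : dist i = k
        · rw [if_pos ⟨hi, h2⟩]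
          have := hA i hi
          field_simp
        · rw [if_neg (fun h => h2 h.2)]
          exact hd1 i hi (by omega)
  obtain ⟨d, hd0, hd1⟩ := key ((univ.sup dist) + 1)
  exact ⟨d, hd0, fun i hi => hd1 i hi (Nat.lt_succ_of_le (Finset.le_sup (mem_univ i)))⟩

theorem contDiff_mvPolynomial {σ E : Type*} [NormedAddCommGroup E] [NormedSpace ℝ E]
    (p : MvPolynomial σ ℝ) (g : σ → E → ℝ) (hg : ∀ s, ContDiff ℝ 1 (g s)) :
    ContDiff ℝ 1 (fun e => MvPolynomial.eval (fun s => g s e) p) := by
  induction p using MvPolynomial.induction_on with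
  | C a => simpa using contDiff_const
  | add p q hp hq => simpa using hp.add hq
  | mul_X p s hp => simpa using hp.mul (hg s)

end LB

open LB in
theorem lower_bound {n : ℕ} (P : Pat n) (hirr : Irred P) (β : Finset ℕ)
    (hβ : β ⊆ Finset.Icc 1 n) (h : SpecArb β P) : n + β.card ≤ P.card + 1 := by
  classical
  rcases Nat.eq_zero_or_pos n with rfl | hn
  · have : β = ∅ := by
      rw [← Finset.subset_empty]
      intro x hx
      have := hβ hx
      simp at this
    subst this
    simp
  obtain ⟨r⟩ : Nonempty (Fin n) := ⟨⟨0, hn⟩⟩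
  obtain ⟨par, dist, hpd⟩ := exists_parent P r (hirr r)
  set T : Finset (Fin n × Fin n) := (univ.erase r).image (fun i => (par i, i)) with hT
  have hTcard : T.card = n - 1 := by
    rw [hT, Finset.card_image_of_injective _ (fun a b hab => (Prod.ext_iff.1 hab).2),
      Finset.card_erase_of_mem (mem_univ r), Finset.card_univ, Fintype.card_fin]
  have hTP : T ⊆ P := by
    intro p hp
    rw [hT, Finset.mem_image] at hp
    obtain ⟨i, hi, rfl⟩ := hp
    exact (hpd i (Finset.ne_of_mem_erase hi)).1
  by_contra hcon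
  have hlt : (P \ T).card < β.card := by
    have h1 : (P \ T).card + T.card = P.card := Finset.card_sdiff_add_card_eq_card hTP
    omega
  let M : ((P \ T : Finset (Fin n × Fin n)) → ℝ) → Fin n × Fin n → ℝ := fun e p =>
    if p ∈ T then 1 else if hp : p ∈ P \ T then e ⟨p, hp⟩ else 0
  let F : ((P \ T : Finset (Fin n × Fin n)) → ℝ) → (β → ℝ) := fun e k =>
    MvPolynomial.eval (M e) ((Matrix.charpoly.univ ℝ (Fin n)).coeff (n - k))
  have hF : ContDiff ℝ 1 F := by
    rw [contDiff_pi]
    intro k
    refine contDiff_mvPolynomial _ (fun s e => M e s) ?_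
    intro s
    simp only [M]
    split_ifs with h1 h2
    · exact contDiff_const
    · exact contDiff_apply ℝ ℝ _
    · exact contDiff_const
  have hdense := hF.dense_compl_range_of_finrank_lt_finrank (by
    rw [Module.finrank_fintype_fun_eq_card, Module.finrank_fintype_fun_eq_card,
      Fintype.card_coe, Fintype.card_coe]
    exact hlt)
  have hsurj : Function.Surjective F := by
    intro y
    obtain ⟨A, hA, hAr⟩ := h (fun k => if hk : k ∈ β then y ⟨k, hk⟩ else 0)
    obtain ⟨d, hd0, hd1⟩ := exists_scaling r par dist (fun i hi => (hpd i hi).2) A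
      (fun i hi => (hA _ _).2 (hpd i hi).1)
    let U : (Matrix (Fin n) (Fin n) ℝ)ˣ :=
      ⟨Matrix.diagonal d, Matrix.diagonal (fun i => (d i)⁻¹), by
        rw [Matrix.diagonal_mul_diagonal]
        simp [hd0], by
        rw [Matrix.diagonal_mul_diagonal]
        simp [hd0]⟩
    let B : Matrix (Fin n) (Fin n) ℝ := (↑U⁻¹ : Matrix (Fin n) (Fin n) ℝ) * A * U.val
    have hB : ∀ i j, B i j = (d i)⁻¹ * A i j * d j := by
      intro i j
      change (Matrix.diagonal (fun i => (d i)⁻¹) * A * Matrix.diagonal d) i j = _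
      rw [Matrix.mul_diagonal, Matrix.diagonal_mul]
    have hBc : B.charpoly = A.charpoly := by
      simp [B]
    refine ⟨fun p => B p.1.1 p.1.2, ?_⟩
    have hM : M (fun p => B p.1.1 p.1.2) = fun p => B p.1 p.2 := by
      funext p
      simp only [M]
      split_ifs with h1 h2
      · rw [hT, Finset.mem_image] at h1
        obtain ⟨i, hi, rfl⟩ := h1
        have hi' := Finset.ne_of_mem_erase hi
        rw [hB]
        have := hd1 i hi'
        rw [mul_assoc, this, inv_mul_cancel₀ (hd0 _)]
      · rfl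
      · have h3 : p ∉ P := fun h => h2 (Finset.mem_sdiff.2 ⟨h, h1⟩)
        have h4 : A p.1 p.2 = 0 := by
          by_contra h5
          exact h3 ((hA _ _).1 h5)
        rw [hB, h4]
        simp
    funext k
    simp only [F]
    rw [hM]
    have h6 := Matrix.charpoly.univ_coeff_eval₂Hom (Fin n) (RingHom.id ℝ)
      (fun p : Fin n × Fin n => B p.1 p.2) (n - k)
    have h7 : (Matrix.of (Function.curry fun p : Fin n × Fin n => B p.1 p.2)) = B := by
      ext i j
      rfl
    rw [h7, hBc] at h6
    have h8 := hAr k k.2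
    rw [dif_pos k.2] at h8
    rw [← h8, ← h6]
    rfl
  rw [hsurj.range_eq, Set.compl_univ] at hdense
  have := hdense.nonempty
  exact Set.not_nonempty_empty this

end Pool.Agent.Helper47.SAP
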